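import Pool.Agent.R797.HK.Strong

set_option autoImplicit false

/-! # The strong monodromy conjecture for products of Hankel determinantal ideals

Let `H = (x_{r + c})`, `0 ≤ r ≤ a`, `0 ≤ c ≤ b`, be the generic Hankel matrix with `a + 1` rows and
`b + 1` columns, with `n = a + b + 1` variables `x_0, …, x_{a+b}` (`hankel`), and let `I_d` be the ideal
generated by its minors of size `d` (`hkMinors`). The zeros of `I_d` are the Hankel matrices of rank at
most `d - 1`, the cone over the `(d - 1)`-th secant variety (`d - 1` points) of the rational normal curve
of degree `a + b`. Let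

  `I = ∏ t, I_{δ t} ^ e t`

be an arbitrary product of powers of ideals of non-maximal minors, `δ t ≤ a`, `δ t ≤ b`; it is
generated by the products of the minors (`prodFam`).

*Resolution.* Let `S_i`, `0 ≤ i ≤ m = min a b`, be the set of the Hankel matrices of rank at most `i`, of
dimension `2 i`. Blow up `S_0 = {0}`, then the strict transform of `S_1`, …, of `S_{m-1}`; let `E_i` be the
divisor over `S_i`. In other words this is the space of complete Hankel forms (Bertram, Thaddeus,
Vermeire for the projective secant varieties). By the following local description, the centres are smooth,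
the `E_i` cross normally, the multiplicity of `E_i` in the relative canonical divisor is `n - 2 i - 1`,
and `I_d` becomes the ideal of the divisor `∑_{i < d} (d - i) E_i`. Let `x` be a Hankel matrix of rank
`i`. After a linear automorphism of the space of binary forms (which acts on the Hankel matrices and
preserves the `I_d`) the principal minor of the first `i` rows and columns is not `0` at `x`; then, by the
continued fraction expansion of `∑ x_m T ^ m`, there are local coordinates `y_0, …, y_{2i-1}`,
`g_0, …, g_{n-2i-1}` such that the Schur complement of the `i × i`-block is, up to units and to unipotent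
triangular matrices on both sides, the Hankel matrix with the entries `g_m`, so `I_d` is locally the ideal
of the minors of size `d - i` of the Hankel matrix of the `g_m`, and `S_j` is the corresponding variety
for `j - i`. The point `x = 0` is treated by induction after the first blow-up.

So the resolution has the numbers `a_i = N_i = ∑ t, e t (δ t - i)`, the sum over the `t` with `δ t > i`
(`mulI`), `k_i + 1 = ν_i = n - 2 i`, and the topological zeta function of `I` is `topZ` with these numbers,
`i < m`, and with the Euler characteristics `χ` of the strata.

The proof: in the coordinates `x_0, …, x_{i-1}`, `p_0, …, p_{i-1}` (the coefficients of a linear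
recurrence), `z`, and `w_l`, `l ≠ s`, `w_s = 1`, where `s = (max δ t) - i`, put `x = x0 + z x1`, where `x0` is the sequence
which satisfies the recurrence and has the given initial values, and `x1` its response to the
inhomogeneity `w`. This is a chart at a point of `E_i`, with `z` the equation of `E_i` (`jacobian`). The
minors of size `d` are divisible by `z ^ (d - i)` (`hasOrd_minors`), and the quotients of suitable
minors of size `i + s` by `z ^ s` have the linear parts `w_l` (`gives_minors`). So all the `E_i` are Rees
divisors of `I`, which gives the roots `-(ν_i + l) / N_i`, `0 ≤ l < N_i` (`rees_span`). Finally the numbers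
`ν_i / N_i` are distinct, because `N_i` is a convex function of `i` and vanishes before `ν_i` does
(`mulI_lt`), so that all poles are simple. -/

namespace Pool.Agent.Results.MP_ee8c61_ag.HankelDeterminantal

open Pool.Agent.W574.SM Pool.Agent.TH192.DT Pool.Agent.H628R4.TP Pool.Agent.R797.HK

/-- **The stronger form of the conjecture for all products of powers of the ideals of non-maximal
minors of the generic Hankel matrix.** Let `b` satisfy a functional equation of the generators of
`I = ∏ t, I_{δ t} ^ e t`, for instance `b = b_I`, and let `N_i = ∑ t, e t (δ t - i)`,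
`ν_i = n - 2 i`, `n = a + b + 1`. (1) All the numbers `-(ν_i + l) / N_i`, `0 ≤ l < N_i`, are roots of
`b`. (2) `b * Z` is a polynomial, for every function `Z = ∑_J χ_J ∏_{i ∈ J} 1 / (N_i s + ν_i)` with
integers `χ_J`, the sum over the sets `J` of numbers `i < min a b`; in particular for the topological zeta
function of `I`. -/
theorem result {T : Type} [Fintype T] [DecidableEq T] (a b : ℕ) (δ e : T → ℕ)
    (hδ : ∀ t, δ t ≤ a ∧ δ t ≤ b) (β : Polynomial ℂ)
    (hβ : IsFunctionalEq (prodFam fun q : Σ t, Fin (e t) => hkMinors a b (δ q.1)) β) :
    (∀ i l : ℕ, l < mulI δ e i →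
      β.eval (-(((a + b + 1 - 2 * i : ℕ) : ℂ) + l) / (mulI δ e i : ℕ)) = 0) ∧
    ∀ χ : Finset (Fin (min a b)) → ℤ, ∃ P : Polynomial ℂ,
      algebraMap (Polynomial ℂ) (RatFunc ℂ) β *
        topZ (fun i : Fin (min a b) => a + b + 1 - 2 * i) (fun i => mulI δ e i) χ
        = algebraMap (Polynomial ℂ) (RatFunc ℂ) P := by
  have hroot : ∀ i l : ℕ, l < mulI δ e i →
      β.eval (-(((a + b + 1 - 2 * i : ℕ) : ℂ) + l) / (mulI δ e i : ℕ)) = 0 := by
    intro i l hl
    have hsum : mulI δ e i = ∑ q : Σ t, Fin (e t), (δ q.1 - i) := by
      rw [Fintype.sum_sigma, mulI]
      refine Finset.sum_congr rfl fun t _ => ?_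
      change _ = ∑ _x : Fin (e t), (δ t - i)
      rw [Finset.sum_const, Finset.card_univ, Fintype.card_fin, smul_eq_mul]
    rw [hsum] at hl ⊢
    exact hk_core a b (fun q : Σ t, Fin (e t) => δ q.1) (fun q => hδ q.1) i β 1 (by simp)
      (isLocEq_of_isFunctionalEq hβ) l hl
  refine ⟨hroot, fun χ => ?_⟩
  refine topZ_mul (fun i : Fin (min a b) => mulI δ e i)
    (fun i : Fin (min a b) => a + b + 1 - 2 * i) (fun i => ?_) (fun i j hij hN => ?_) β
    (fun i hN => ?_) χ
  · have := i.2
    change 0 < a + b + 1 - 2 * (i : ℕ)
    omega
  · have h1 := j.2
    refine mulI_lt (a + b + 1) δ e (fun t => ?_) i j hij (by omega) hN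
    have := hδ t
    omega
  · have h := hroot i 0 hN
    rw [Nat.cast_zero, add_zero] at h
    exact h

end Pool.Agent.Results.MP_ee8c61_ag.HankelDeterminantal
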