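import Pool.Agent.R852.FP.Main

set_option autoImplicit false

/-! # The strong monodromy conjecture for products of polymatroidal ideals of linear subspaces

Let `L s = zeros (c s)`, `s ∈ S`, be proper linear subspaces of the affine space `ℂ ^ σ`, given as the
zeros of linear forms with the coefficients `c s j`. For `t ∈ T` let `U t` be the set of the bases of a
discrete polymatroid on `S` (a finite non-empty set of vectors `u : S → ℕ` with the exchange property
of Herzog and Hibi), let

  `J_t = ∑_{u ∈ U t} ∏_s I(L s) ^ u s`,

which is generated by the products of the linear forms, `u s` of them from the family of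
index `s`, for the `u ∈ U t` (`polyGen`), and let `I = ∏ t, J_t ^ a t`, generated by the products of these
products (`prodFam`).

For example, if the `L s` are hyperplanes `ℓ_s = 0` and `U t = {u | u s ≤ 1, ∑ s, u s = k t}`, then `J_t`
is the ideal generated by the `k t`-fold products of the linear forms `ℓ_s` (Tohaneanu and others; if
the `ℓ_s` are generic it is the ideal of a star configuration). The theorem applies to the sets
`U t = {u | u s ≤ d s, ∑ s, u s = k}`, `0 < d s`, `k < ∑ s, d s`, and to their sums (`IsVeronese`; `d` and
`k` may depend on `t`); so for instance to all products of powers of the ideals of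
`k`-fold products, `k < |S|`, of an arbitrary arrangement of hyperplanes (or of subspaces).

Let `𝒢` be the set of all the flats of the `L s` (proper intersections of some of them, `IsFlat`), and
let `Y` be the (maximal) wonderful model of De Concini and Procesi, which is obtained from the affine
space by blowing up the strict transforms of the flats, in the order of the dimension. It is smooth, the
components `E_G`, `G ∈ 𝒢`, cross normally, `E_G, E_{G'}, …` have a common point only if `G, G', …` is a
chain, the multiplicity of the Jacobian determinant along `E_G` is `ν_G - 1` with `ν_G = codim G`, and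
the ideal of `L s` becomes the ideal of the divisor `∑ E_G`, over the `G ⊆ L s`. So near a point of `Y`
the ideal `J_t` is generated by the monomials `∏_G z_G ^ (∑_{s ∈ A_G} u s)`, `u ∈ U t`, where `G` runs over
a chain and `A_G` is the set of the `s` with `G ⊆ L s` (`above`); as the `A_G` form a chain, there is a
`u ∈ U t` for which all the exponents are minimal (greedy algorithm). Hence `J_t` is locally principal
and has the multiplicity `min_{u ∈ U t} ∑_{s ∈ A_G} u s` along `E_G` (`minOn`), and `Y` is a
principalization of `I`, with the multiplicities
`N_G = ∑ t, a t min_{u ∈ U t} ∑_{s ∈ A_G} u s`. Every pole of the topological zeta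
function `Z_I` is one of the numbers `-ν_G / N_G`, `G ∈ 𝒢`, `N_G > 0`.

The general form of the theorem (1) holds for all sets of exponents and all the `G` which are Rees flats
(`IsReesP`; an equivalent condition is that `E_G` is a Rees divisor of `I`), for instance
with a smaller building set, if the `J_t` become locally principal. (2) All flats are Rees flats, if the
`U t` are of the kind described above, or if the indices in `A_G` are linked (`IsLinked`): for each
decomposition of `A_G` into two non-empty parts there are `i`, `j` in the different parts such that some
`U t`, `a t ≠ 0`, contains two elements `m + e_i`, `m + e_j` for which the sum over `A_G` is minimal.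

The proof: at a general point of `E_G`, with the direction `v`, the quotients of the
generators `M (ℓ_i) / M (ℓ_j)` for linked `i`, `j` give all the linear forms on `L i ∩ L j` which vanish at
`v` (`Good.cov`); if the linked indices connect `A_G` they give a chart of `E_G` (`rees_of_linked`), and a
residue computation there gives the roots (`fp_core`). -/

namespace Pool.Agent.Results.MP_ee8c61_ag.PolymatroidalIdeals

open Pool.Agent.W574.SM Pool.Agent.TH192.DT Pool.Agent.TH187.SA Pool.Agent.R852.FP

/-- **Products of powers of polymatroidal ideals of linear subspaces.** (1) Let `G` be a Rees flat.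
Every polynomial `b` which satisfies a functional equation of the generators of `I = ∏ t, J_t ^ a t`, in
particular the Bernstein-Sato polynomial of `I`, has the roots `-(codim G + l) / N_G`,
`0 ≤ l < N_G`.
(2) All the
flats of the `L s` are Rees flats, if the sets `U t` of exponents with `a t ≠ 0` are sums of sets of
Veronese type `{u | u s ≤ d s, ∑ s, u s = k}`, `0 < d s`, `k < ∑ s, d s`, or if the indices of the
subspaces `L s ⊇ G` are linked for each flat `G`. -/
theorem result :
    (∀ {σ S T : Type} [Fintype σ] [DecidableEq σ] [Fintype S] [DecidableEq S] [Fintype T]
      [DecidableEq T] {κ : S → Type} [∀ s, Fintype (κ s)] [∀ s, DecidableEq (κ s)]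
      (c : (s : S) → κ s → σ → ℂ) (U : T → Finset (S → ℕ)) (_ : ∀ t, (U t).Nonempty) (a : T → ℕ)
      (b : Polynomial ℂ)
      (_ : IsFunctionalEq (prodFam fun q : Σ t, Fin (a t) => polyGen c (U q.1)) b)
      (G : Submodule ℂ (σ → ℂ)) (_ : IsReesP c U a G) (l : ℕ)
      (_ : l < ∑ t, a t * minOn (above c G) (U t)),
      b.eval (-(((Fintype.card σ - Module.finrank ℂ G : ℕ) : ℂ) + l) /
        (∑ t, a t * minOn (above c G) (U t) : ℕ)) = 0) ∧
    ∀ {σ S T : Type} [Fintype σ] [DecidableEq σ] [Fintype S] [DecidableEq S] [Fintype T]
      [DecidableEq T] {κ : S → Type} [∀ s, Fintype (κ s)] [∀ s, DecidableEq (κ s)]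
      (c : (s : S) → κ s → σ → ℂ) (_ : ∀ s, ∃ j, c s j ≠ 0) (U : T → Finset (S → ℕ))
      (_ : ∀ t, (U t).Nonempty) (a : T → ℕ) (G : Submodule ℂ (σ → ℂ)), IsFlat c G →
      (∀ t, a t ≠ 0 → IsVeronese (U t)) ∨ IsLinked U a (above c G) → IsReesP c U a G := by
  refine ⟨?_, ?_⟩
  · intro σ S T _ _ _ _ _ _ κ _ _ c U hU a b hb G hG l hl
    exact ideal_roots c U hU a G hG b 1 (by simp) (isLocEq_of_isFunctionalEq hb) l hl
  · intro σ S T _ _ _ _ _ _ κ _ _ c hc U hU a G hG h
    exact isReesP_flat c hc U hU a G hG h

end Pool.Agent.Results.MP_ee8c61_ag.PolymatroidalIdeals
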