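import Pool.Agent.R852.TP.Fin

/-!
# The strong monodromy conjecture for ideals built from powers and products of powers of forms

Let `𝓘` and `𝓗` be the least classes of ideals and of hypersurfaces (`TPw StrongAt StrongHyp false`
and `TPw StrongAt StrongHyp true`, together with their global topological zeta functions `Z`) with
the following properties.

* `𝓘` contains the ideals `(x ^ m)`; all non-zero ideals of `ℂ[x, y]`; the ideals of `ℂ[x₀, x₁, x₂]`
  generated by forms of the same degree, three of which are algebraically independent; the ideals
  generated by forms of the same degree without a common zero outside the origin; the ideals whose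
  numerical data come from Rees divisors; the ideals `(f_1, …, f_k)` with very general coefficients at
  the vertices of the Newton polytopes; the products of powers of the ideals of linear subspaces for
  which the wonderful model has only Rees flats.
* `𝓗` contains all plane curves and the polynomials with very general coefficients at the vertices
  of the Newton polytope and arbitrary other terms.
* The principal ideals `(g)` and `(g ^ k)`, `g` in `𝓗`, are in `𝓘`.
* `𝓘` is closed under sums and products in disjoint sets of variables.
* If the ideal `h ∏_t (f_{t, j})_j ^ a_t` is in `𝓘`, where `h` and the `f_{t, j}` are any polynomials in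
  the same variables `x`, then `h(x) ∏_t (∑_j y_{t, j} f_{t, j}(x)) ^ a_t` is in `𝓗`, with further
  variables `y_{t, j}`.
* `𝓗` contains the Thom-Sebastiani sums `∑ y_j f_j(x) + g(z)` for `(f_j)` in `𝓘` and `g` in `𝓗`, and
  is closed under products in disjoint sets of variables and under dropping variables.

Examples are the ideals `(g_1(x) ^ k_1, g_2(y) ^ k_2, …)` generated by powers of plane curves in
disjoint sets of variables, the products of such ideals, and so on.

The proof is by induction, with the descriptions of the Bernstein-Sato polynomials of sums and
products in disjoint variables, of Thom-Sebastiani sums (by the microlocal `b`-function), of products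
of powers of forms (`b_F(s) = ∏_t ∏_{1 ≤ i ≤ a_t} (a_t s + i) b'(s)`, where `b'` is a functional
equation of the ideal `h ∏_t (f_{t, j})_j ^ a_t`), and of powers (`b_g(s) ∣ b_{g ^ k}(s / k)`).
-/

set_option autoImplicit false

namespace Pool.Agent.Results.MP_ee8c61_ag.PowersOfForms

open MvPolynomial Pool.Agent.W574.SM Pool.Agent.W574.RO Pool.Agent.Y230.TH Pool.Agent.R852.TP

/-- **The strong monodromy conjecture for the ideals of the class.** Let `A = (f_j)` be an ideal with
`TPw StrongAt StrongHyp false A Z`, that is, `A` is in the class `𝓘` which is described above, and `Z`
is its topological zeta function. Let `b` satisfy a functional equation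
`b(s_1 + ⋯ + s_r) ∏ f_i ^ (s_i) = ∑_c P_c ∏_{c_i < 0} binom(s_i, -c_i) ∏ f_i ^ (s_i + c_i)`
(`IsFunctionalEq`); for example, let `b` be the Bernstein-Sato polynomial `b_I` of the ideal. Then
`b(s₀) = 0` for every pole `s₀` of `Z`. -/
theorem result (A : Fam) (Z : RatFunc ℂ) (h : TPw StrongAt StrongHyp false A Z)
    (b : Polynomial ℂ) (hb : IsFunctionalEq A.f b) (s₀ : ℂ) (hs : Z.denom.eval s₀ = 0) :
    b.eval s₀ = 0 :=
  tp_ideal A Z h b hb s₀ hs

end Pool.Agent.Results.MP_ee8c61_ag.PowersOfForms
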