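import Pool.Agent.R852.SC.Jac
import Pool.Agent.R852.SC.Main
import Pool.Agent.R852.SC.Poly

set_option autoImplicit false

/-! # Ideals with smooth zero schemes in the projective space

For `t ∈ T` let `g t j`, `j ∈ κ t`, be forms of the same degree `δ t > 0` in `n = |σ|` variables, not all
zero, let `I_t` be the ideal which they generate, and `I = ∏ t, I_t ^ a t`, with the generators
`prodFam`.

Let `Z_i`, `i ∈ I`, be pairwise disjoint smooth irreducible closed subvarieties of `ℙ^(n-1)`, of
codimension `c i`, and assume that, for all `t`, the ideal sheaf on `ℙ^(n-1)` defined by `I_t` is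
`∏ i, I(Z_i) ^ m i t`; the numbers `m i t ≥ 0` are arbitrary. So the zero scheme of `I_t` in the
projective space is a disjoint union of thickenings of smooth varieties (for example a reduced smooth
scheme, or a scheme of fat points). Let `p i ≠ 0` be a point of the affine cone over `Z_i`. Then near
`p i` the ideals `I_t` are the powers with the exponents `m i t` of the ideal of a smooth variety of
codimension `c i` (`PowersOfSmooth`). This, at one point for each `i`, is all that the proof uses.

Blow up the origin of `ℂ ^ n`, and then the strict transforms of the affine cones over the `Z_i`, which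
are smooth, pairwise disjoint, and transversal to the exceptional divisor `E_0 = ℙ^(n-1)`. On the smooth
variety `Y` obtained, the ideal `I_t` becomes the ideal of the divisor `δ t E_0 + ∑ i, m i t E_i`, which
has normal crossings; so `Y` is a log resolution of `I`, with the components `E_0`, with `ν = n` and
the multiplicity `N = ∑ t, a t * δ t`, and `E_i`, with `ν = c i` and `N = ∑ t, a t * m i t`.

The theorem needs another assumption: (J) for some `t` with `a t ≠ 0` there are `n` algebraically
independent forms among the `g t j` (their Jacobian determinant is not zero); that is, the rational map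
from `ℙ^(n-1)` given by the `g t j` is generically finite onto its image. By part (2) of the theorem it
holds if the linear span of the `g t j` contains the products `x_s q`, `s ∈ σ`, of the variables and some
form `q ≠ 0`.

Examples: (a) Let `Z_i` be arbitrary (pairwise disjoint, smooth) and `m i ≥ 0`. For all sufficiently
large `δ`, the forms of degree `δ` in `∏ i, I(Z_i) ^ m i` generate this ideal sheaf, and their span
contains all the `x_s q` for some `q ≠ 0`; so the theorem applies to the complete linear systems of the
forms of large degree with the multiplicities `m i` along the `Z_i`, and to all products of powers of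
such systems for the same `Z_i`. (b) One `Z`, and forms of the smallest degree: the quadrics in the
homogeneous ideals of the Segre varieties `ℙ^r × ℙ^s`, `r, s ≥ 2`, of the quadratic Veronese varieties of
`ℙ^r`, `r ≥ 2`, of the Grassmannians `G(2, r)`, `r ≥ 6`, and of the elliptic normal curves of degree `5`.

The proof: the quotients of the generators give, by (J), a chart of `E_0`
(`cone_chart`), and, as the powers of the ideal of a smooth variety have the same blow-up as the ideal,
a chart of `E_i` (`smooth_chart`; the formal inverse function theorem `exists_inverse` is used here). A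
residue computation in these charts gives the roots (`rees_prod`). -/

namespace Pool.Agent.Results.MP_ee8c61_ag.SmoothConeIdeals

open MvPolynomial Pool.Agent.W574.SM Pool.Agent.W574.LM Pool.Agent.W574.HS Pool.Agent.H628R4.TP
  Pool.Agent.TH192.DT Pool.Agent.TH187.SA Pool.Agent.Y231.RF Pool.Agent.R852.SC

/-- **Q1 holds for `I = ∏ t, I_t ^ a t`, and Q2 if the ratios differ.** (1) Let `b` be a polynomial which
satisfies a functional equation of the generators of `I`, in particular the Bernstein-Sato polynomial of
`I`, and let `Z` be the topological zeta function of `I`, computed on the resolution described above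
(with arbitrary integers `χ` in the place of the Euler characteristics of the strata). Every pole of `Z`
is a root of `b`. If the numbers `ν / N` of the components which meet (in a stratum with `χ ≠ 0`) are
different, that is, `n N_i ≠ c i N_0` with `N_0 = ∑ t, a t * δ t` and `N_i = ∑ t, a t * m i t`, then `b Z` is
a polynomial.
(2) The condition (J) holds if the span of the `g t j`, for some `t` with `a t ≠ 0`, contains the
products of all the variables and some form `q ≠ 0`. -/
theorem result :
    (∀ {σ T I : Type} [Fintype σ] [DecidableEq σ] [Fintype T] [DecidableEq T] [Fintype I]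
      {κ : T → Type} [∀ t, Fintype (κ t)] [∀ t, DecidableEq (κ t)]
      (g : (t : T) → κ t → MvPolynomial σ ℂ) (δ : T → ℕ) (_ : ∀ t, 0 < δ t)
      (_ : ∀ t j, (g t j).IsHomogeneous (δ t)) (_ : ∀ t, ∃ j, g t j ≠ 0) (a : T → ℕ)
      (_ : ∃ t, a t ≠ 0 ∧ ∃ e : σ → κ t, (Matrix.of fun i s => pderiv i (g t (e s))).det ≠ 0)
      (c : I → ℕ) (m : I → T → ℕ) (p : I → σ → ℂ)
      (_ : ∀ i, PowersOfSmooth g (c i) (m i) (p i)) (χ : Finset (Option I) → ℤ) (b : Polynomial ℂ)
      (_ : IsFunctionalEq (prodFam fun q : Σ t, Fin (a t) => g q.1) b),
      (∀ s₀ : ℂ, (topZ (fun o : Option I => o.elim (Fintype.card σ) c)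
        (fun o => ∑ t, a t * o.elim δ m t) χ).denom.eval s₀ = 0 → b.eval s₀ = 0) ∧
      ((∀ J, χ J ≠ 0 → ∀ o ∈ J, ∀ o' ∈ J, o ≠ o' → 0 < ∑ t, a t * o.elim δ m t →
          0 < ∑ t, a t * o'.elim δ m t → o.elim (Fintype.card σ) c * ∑ t, a t * o'.elim δ m t ≠
            o'.elim (Fintype.card σ) c * ∑ t, a t * o.elim δ m t) →
        ∃ P : Polynomial ℂ, algebraMap (Polynomial ℂ) (RatFunc ℂ) b *
          topZ (fun o : Option I => o.elim (Fintype.card σ) c)
            (fun o => ∑ t, a t * o.elim δ m t) χ = algebraMap (Polynomial ℂ) (RatFunc ℂ) P)) ∧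
    ∀ {σ κ : Type} [Fintype σ] [DecidableEq σ] (g : κ → MvPolynomial σ ℂ) (q : MvPolynomial σ ℂ)
      (d : ℕ), q.IsHomogeneous d → q ≠ 0 → (∀ s, X s * q ∈ Submodule.span ℂ (Set.range g)) →
      ∃ e : σ → κ, (Matrix.of fun i s => pderiv i (g (e s))).det ≠ 0 := by
  refine ⟨?_, ?_⟩
  · intro σ T I _ _ _ _ _ κ _ _ g δ hδ hg hg0 a hJ c m p hp χ b hb
    have : Nonempty T := ⟨hJ.choose⟩
    have := nonempty_of g δ hδ hg hg0
    have hν : ∀ o : Option I, 0 < o.elim (Fintype.card σ) c := fun o =>
      nuC_pos (T := T) g c m p hp (Sum.inl o)
    have hr : ∀ o : Option I, 0 < ∑ t, a t * o.elim δ m t →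
        b.eval (-((o.elim (Fintype.card σ) c : ℕ) : ℂ) / (∑ t, a t * o.elim δ m t : ℕ)) = 0 :=
      fun o ho => ideal_comp g δ hδ hg hg0 a hJ c m p hp b 1 (by simp)
        (isLocEq_of_isFunctionalEq hb) o ho
    refine ⟨fun s₀ hs₀ => ?_, fun hd => ?_⟩
    · obtain ⟨J, _, o, _, hN, rfl⟩ := Pool.Agent.Y228.RR.pole_topZ' _ _ χ hν s₀ hs₀
      exact hr o hN
    · classical
      exact topZ_mul _ _ hν χ b hr hd
  · intro σ κ _ _ g q d hq h0 h
    exact jac_of_mul g q d hq h0 h

end Pool.Agent.Results.MP_ee8c61_ag.SmoothConeIdeals
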